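import Pool.Agent.H71.SLP.Stmts

/-!
# The trivial label of a tube

The passive coordinate along the line is a polynomial of degree one in the time; it agrees with the
constant given by the point of resolution `r` on balls of radius `2 ^ (-a)`.
-/

set_option autoImplicit false

namespace Pool.SLF

open Finset Real MvPolynomial
open Pool.Agent.H49.Ent Pool.Agent.H32.Dense Pool.STK Pool.KA Pool.KSAT Pool.K2S Pool.PB

theorem trv_tb {m J K : ℕ} {F : Fam m J} {i₁ : Fin m} {r a w P : ℕ} {A : F.Ω → Prop}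
    (hK : 1 ≤ K) (hPa : P + 1 ≤ a) (hPr : P + 1 ≤ r) : Tb F i₁ r K a w P A := by
  have hm : (0 : ℝ) ≤ 2 * m := by positivity
  refine ⟨fun y => C ((y.1 i₁ : ℝ) / 2 ^ r), fun s => C (s.1.1 i₁) + C (s.1.2 i₁) * X i₁,
    fun y => ?_, fun s => ?_, fun ω _ => ?_⟩
  · rw [totalDegree_C]; exact Nat.zero_le _
  · refine (totalDegree_add _ _).trans (max_le ?_ ?_)
    · rw [totalDegree_C]; exact Nat.zero_le _
    · refine (totalDegree_mul _ _).trans ?_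
      rw [totalDegree_C, totalDegree_X, zero_add]
      exact hK
  have hr0 : (0 : ℝ) < 2 ^ r := by positivity
  have e1 : (1 : ℝ) / 2 ^ r ≤ 1 / 2 ^ (P + 1) := inv_mono hPr
  have e2 : (1 : ℝ) / 2 ^ a ≤ 1 / 2 ^ (P + 1) := inv_mono hPa
  have e3 : (1 : ℝ) / 2 ^ (P + 1) = 1 / 2 ^ P / 2 := by rw [pow_succ]; field_simp
  have e4 : (0 : ℝ) < 1 / 2 ^ P := by positivity
  have h1 : |F.x ω i₁ - ((F.X r ω i₁ : ℤ) : ℝ) / 2 ^ r| ≤ 1 / 2 ^ r := by
    have a1 := Int.floor_le ((2 : ℝ) ^ r * F.x ω i₁)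
    have a2 := Int.lt_floor_add_one ((2 : ℝ) ^ r * F.x ω i₁)
    have e : F.x ω i₁ - ((F.X r ω i₁ : ℤ) : ℝ) / 2 ^ r =
        (2 ^ r * F.x ω i₁ - ((⌊(2 : ℝ) ^ r * F.x ω i₁⌋ : ℤ) : ℝ)) / 2 ^ r := by
      change F.x ω i₁ - ((⌊(2 : ℝ) ^ r * F.x ω i₁⌋ : ℤ) : ℝ) / 2 ^ r = _
      field_simp
    rw [e, abs_div, abs_of_pos hr0]
    refine div_le_div_of_nonneg_right ?_ hr0.le
    rw [abs_le]
    constructor <;> linarith
  refine ⟨?_, fun j => ?_, fun b hb => ?_⟩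
  · rw [eval_C]
    change |F.x ω i₁ - ((F.X r ω i₁ : ℤ) : ℝ) / 2 ^ r| ≤ 1 / 2 ^ P
    linarith
  · rw [pderiv_C, map_zero, abs_zero]
    exact hm
  · rw [eval_C, eval_add, eval_mul, eval_C, eval_C, eval_X]
    change |((F.X r ω i₁ : ℤ) : ℝ) / 2 ^ r - (F.u ω i₁ + F.d ω i₁ * b i₁)| ≤ 1 / 2 ^ P
    have hb1 : |b i₁ - F.t ω| ≤ 1 / 2 ^ a := by
      have := hb i₁
      rwa [bp, Function.update_self] at this
    have h2 : |F.x ω i₁ - (F.u ω i₁ + F.d ω i₁ * b i₁)| ≤ 1 / 2 ^ a := by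
      have e : F.x ω i₁ - (F.u ω i₁ + F.d ω i₁ * b i₁) = -((b i₁ - F.t ω) * F.d ω i₁) := by
        unfold Fam.x
        ring
      rw [e, abs_neg, abs_mul]
      calc _ ≤ 1 / 2 ^ a * 1 := mul_le_mul hb1 (F.dir ω i₁) (abs_nonneg _) (by positivity)
        _ = _ := mul_one _
    rw [abs_le] at h1 h2 ⊢
    constructor <;> linarith [h1.1, h1.2, h2.1, h2.2]

theorem trv_thm (k : ℕ) : TRV k := fun _ _ _ _ _ _ _ _ _ hK ha hr _ => trv_tb hK ha hr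

end Pool.SLF
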